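import Pool.Agent.Helper64.CB.A_TRP

/-!
# Complex Banach conjecture, algebra half: module A_CHP

The coefficients of the characteristic polynomial are invariant polynomials.
-/

namespace Pool.Agent.Helper80.CB

open Matrix MvPolynomial

section CHP

variable {n q : ℕ} (D : Cpt n) (b : Module.Basis (Fin q) ℝ D.h)

/-- The ring of complex polynomial functions on `D.h`. -/
def chp_R : Subring (D.h → ℂ) where
  carrier := {f | ∃ P Q : MvPolynomial (Fin q) ℝ,
    ∀ X, f X = ((val b X P : ℝ) : ℂ) + Complex.I * ((val b X Q : ℝ) : ℂ)}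
  mul_mem' := by
    rintro f g ⟨P, Q, h1⟩ ⟨P', Q', h2⟩
    refine ⟨P * P' - Q * Q', P * Q' + Q * P', fun X => ?_⟩
    simp only [Pi.mul_apply, h1, h2, val, map_add, map_sub, map_mul, Complex.ofReal_add,
      Complex.ofReal_sub, Complex.ofReal_mul]
    linear_combination (-(((eval (fun i => b.repr X i) Q : ℝ) : ℂ) *
      ((eval (fun i => b.repr X i) Q' : ℝ) : ℂ))) * (-Complex.I_mul_I)
  one_mem' := ⟨1, 0, fun X => by simp [val]⟩
  add_mem' := by
    rintro f g ⟨P, Q, h1⟩ ⟨P', Q', h2⟩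
    refine ⟨P + P', Q + Q', fun X => ?_⟩
    simp only [Pi.add_apply, h1, h2, val, map_add, Complex.ofReal_add]
    ring
  zero_mem' := ⟨0, 0, fun X => by simp [val]⟩
  neg_mem' := by
    rintro f ⟨P, Q, h1⟩
    refine ⟨-P, -Q, fun X => ?_⟩
    simp only [Pi.neg_apply, h1, val, map_neg, Complex.ofReal_neg]
    ring

theorem chp_entry (k l : Fin n) : (fun X : D.h => (X : Mat n) k l) ∈ chp_R D b := by
  obtain ⟨P, Q, -, -, h⟩ := trp_entry D b k l
  exact ⟨P, Q, h⟩

/-- The generic matrix. -/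
def chp_M : Matrix (Fin n) (Fin n) (chp_R D b) := fun k l => ⟨_, chp_entry D b k l⟩

/-- Evaluation at a point. -/
def chp_ev (X : D.h) : chp_R D b →+* ℂ := (Pi.evalRingHom (fun _ : D.h => ℂ) X).comp
  (chp_R D b).subtype

theorem chp_map (X : D.h) : (chp_M D b).map (chp_ev D b X) = (X : Mat n) := rfl

theorem chp_coeff (j : ℕ) (X : D.h) :
    (X : Mat n).charpoly.coeff j = ((chp_M D b).charpoly.coeff j : D.h → ℂ) X := by
  have h1 : (X : Mat n).charpoly = ((chp_M D b).charpoly).map (chp_ev D b X) := by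
    rw [← Matrix.charpoly_map, chp_map]
  rw [h1, Polynomial.coeff_map]
  rfl

theorem chp_real (X : Mat n) (hX : Xᴴ = X) (j : ℕ) :
    (starRingEnd ℂ) (X.charpoly.coeff j) = X.charpoly.coeff j := by
  have h1 : Xᵀ.map (starRingEnd ℂ) = X := by
    have : Xᵀ.map (starRingEnd ℂ) = Xᴴ := rfl
    rw [this, hX]
  have h2 : X.charpoly = (X.charpoly).map (starRingEnd ℂ) := by
    conv_lhs => rw [← h1]
    rw [Matrix.charpoly_map, Matrix.charpoly_transpose]
  conv_rhs => rw [h2]
  rw [Polynomial.coeff_map]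

theorem chp_conj (g X : Mat n) (hg : gᴴ * g = 1) : (g * X * gᴴ).charpoly = X.charpoly := by
  rw [Matrix.charpoly_mul_comm, ← Matrix.mul_assoc, hg, Matrix.one_mul]

end CHP

/-- Module A_CHP. -/
theorem st_CHP : ST_CHP := by
  intro n q D b j
  obtain ⟨P, Q, h⟩ := ((chp_M D b).charpoly.coeff j).2
  have hval : ∀ X : D.h, (X : Mat n).charpoly.coeff j = ((val b X P : ℝ) : ℂ) := by
    intro X
    have h1 : (X : Mat n).charpoly.coeff j = ((val b X P : ℝ) : ℂ) +
      Complex.I * ((val b X Q : ℝ) : ℂ) := (chp_coeff D b j X).trans (h X)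
    have h2 := Complex.conj_eq_iff_im.1 (chp_real (X : Mat n) (D.herm X X.2) j)
    rw [h1] at h2
    simp at h2
    rw [h1, h2]
    simp
  refine ⟨P, ?_, hval⟩
  intro g hg X
  have h7 : ((val b ⟨g * X * gᴴ, D.Ad_mem g hg X X.2⟩ P : ℝ) : ℂ) = ((val b X P : ℝ) : ℂ) := by
    rw [← hval, ← hval]
    exact congrArg (fun p => Polynomial.coeff p j) (chp_conj g (X : Mat n) (D.unit g hg))
  exact_mod_cast h7

end Pool.Agent.Helper80.CB
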