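import Pool.Agent.Helper80.CB.Stmts

/-!
# Complex Banach conjecture, algebra half: module A_NEWT

If the power sums `1, …, n` of `δ` are all `-1` (`n = 3 mod 4`), then `δ` enumerates the
`(n+1)`-th roots of unity different from `1` and complex conjugation is an odd permutation.
-/

namespace Pool.Agent.Helper80.CB

open Matrix MvPolynomial

theorem newt_esymm (N : ℕ) (z : Fin N → ℂ) (m : ℕ)
    (h : ∀ j, 1 ≤ j → j ≤ m → ∑ i, z i ^ j = 0) :
    ∀ k, 1 ≤ k → k ≤ m → aeval z (esymm (Fin N) ℂ k) = 0 := by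
  intro k hk1 hkm
  have h1 := congrArg (aeval z) (MvPolynomial.mul_esymm_eq_sum (Fin N) ℂ k)
  rw [map_mul, map_mul, map_sum] at h1
  have h2 : ∀ a ∈ (Finset.HasAntidiagonal.antidiagonal k).filter (fun a : ℕ × ℕ => a.1 < k),
      aeval z ((-1) ^ a.1 * esymm (Fin N) ℂ a.1 * psum (Fin N) ℂ a.2) = 0 := by
    intro a ha
    rw [Finset.mem_filter, Finset.HasAntidiagonal.mem_antidiagonal] at ha
    have h3 : aeval z (psum (Fin N) ℂ a.2) = 0 := by
      rw [psum, map_sum]
      simp only [map_pow, aeval_X]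
      exact h a.2 (by omega) (by omega)
    rw [map_mul, h3, mul_zero]
  rw [Finset.sum_eq_zero h2, mul_zero] at h1
  have h4 : aeval z ((k : MvPolynomial (Fin N) ℂ)) = (k : ℂ) := by simp
  rw [h4] at h1
  rcases mul_eq_zero.1 h1 with h5 | h5
  · exfalso
    have : k = 0 := by exact_mod_cast h5
    omega
  · exact h5

theorem newt_poly (n : ℕ) (z : Fin (n + 1) → ℂ) (h0 : z 0 = 1)
    (h : ∀ j, 1 ≤ j → j ≤ n → ∑ i, z i ^ j = 0) :
    (∏ i, (Polynomial.X - Polynomial.C (z i)) : Polynomial ℂ) =
      Polynomial.X ^ (n + 1) - Polynomial.C 1 := by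
  set s : Multiset ℂ := Finset.univ.val.map z with hs
  have hcard : Multiset.card s = n + 1 := by
    rw [hs, Multiset.card_map]; simp
  have hp : (∏ i, (Polynomial.X - Polynomial.C (z i)) : Polynomial ℂ) =
      (s.map fun t => Polynomial.X - Polynomial.C t).prod := by
    rw [hs, Multiset.map_map]; rfl
  have hco : ∀ k ≤ n + 1, (∏ i, (Polynomial.X - Polynomial.C (z i)) : Polynomial ℂ).coeff k =
      (-1) ^ (n + 1 - k) * aeval z (esymm (Fin (n + 1)) ℂ (n + 1 - k)) := by
    intro k hk
    rw [hp, Multiset.prod_X_sub_C_coeff s (by rw [hcard]; exact hk), hcard,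
      MvPolynomial.aeval_esymm_eq_multiset_esymm]
  have hmid : ∀ k, 1 ≤ k → k ≤ n →
      (∏ i, (Polynomial.X - Polynomial.C (z i)) : Polynomial ℂ).coeff k = 0 := by
    intro k hk1 hk2
    rw [hco k (by omega), newt_esymm (n + 1) z n h (n + 1 - k) (by omega) (by omega), mul_zero]
  have htop : (∏ i, (Polynomial.X - Polynomial.C (z i)) : Polynomial ℂ).coeff (n + 1) = 1 := by
    rw [hco (n + 1) le_rfl]
    simp
  have hdeg : (∏ i, (Polynomial.X - Polynomial.C (z i)) : Polynomial ℂ).natDegree = n + 1 := by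
    rw [Polynomial.natDegree_prod_of_monic _ _ (fun i _ => Polynomial.monic_X_sub_C _)]
    simp
  set c := (∏ i, (Polynomial.X - Polynomial.C (z i)) : Polynomial ℂ).coeff 0 with hc
  have hform : (∏ i, (Polynomial.X - Polynomial.C (z i)) : Polynomial ℂ) =
      Polynomial.X ^ (n + 1) + Polynomial.C c := by
    ext k
    rw [Polynomial.coeff_add, Polynomial.coeff_X_pow, Polynomial.coeff_C]
    rcases Nat.eq_zero_or_pos k with hk | hk
    · subst hk
      simp [hc]
    · rcases Nat.lt_or_ge n k with hk2 | hk2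
      · rcases Nat.eq_or_lt_of_le hk2 with hk3 | hk3
        · have hk4 : k = n + 1 := hk3.symm
          subst hk4
          rw [htop]
          simp
        · rw [Polynomial.coeff_eq_zero_of_natDegree_lt (by rw [hdeg]; exact hk3)]
          rw [if_neg (by omega), if_neg (by omega), add_zero]
      · rw [hmid k hk hk2, if_neg (by omega), if_neg (by omega), add_zero]
  have hev : (∏ i, (Polynomial.X - Polynomial.C (z i)) : Polynomial ℂ).eval 1 = 0 := by
    rw [Polynomial.eval_prod]
    exact Finset.prod_eq_zero (Finset.mem_univ (0 : Fin (n + 1))) (by simp [h0])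
  rw [hform] at hev
  simp at hev
  have hc1 : c = -1 := by linear_combination hev
  rw [hform, hc1]
  simp [sub_eq_add_neg]

/-- Module A_NEWT. -/
theorem st_NEWT : ST_NEWT := by
  intro n hn δ hδ
  set z : Fin (n + 1) → ℂ := Fin.cons 1 δ with hz
  have hz0 : z 0 = 1 := by simp [hz]
  have hzs : ∀ i : Fin n, z i.succ = δ i := fun i => by simp [hz]
  have hsum : ∀ j, 1 ≤ j → j ≤ n → ∑ i, z i ^ j = 0 := by
    intro j h1 h2
    rw [Fin.sum_univ_succ, hz0]
    simp only [hzs]
    rw [hδ j h1 h2]
    simp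
  have hp := newt_poly n z hz0 hsum
  have hinj : Function.Injective z := by
    rw [← Polynomial.separable_prod_X_sub_C_iff, hp]
    refine Polynomial.separable_X_pow_sub_C (1 : ℂ) ?_ one_ne_zero
    exact_mod_cast Nat.succ_ne_zero n
  have hroot : ∀ i, z i ^ (n + 1) = 1 := by
    intro i
    have h1 := congrArg (Polynomial.eval (z i)) hp
    rw [Polynomial.eval_prod, Finset.prod_eq_zero (Finset.mem_univ i) (by simp)] at h1
    simp at h1
    linear_combination -h1
  have hconv : ∀ w : ℂ, w ^ (n + 1) = 1 → ∃ i, z i = w := by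
    intro w hw
    have h1 := congrArg (Polynomial.eval w) hp
    rw [Polynomial.eval_prod] at h1
    have h2 : ∏ i, Polynomial.eval w (Polynomial.X - Polynomial.C (z i)) = 0 := by
      rw [h1]; simp [hw]
    obtain ⟨i, -, hi⟩ := Finset.prod_eq_zero_iff.1 h2
    refine ⟨i, ?_⟩
    simp at hi
    linear_combination -hi
  have hconv' : ∀ w : ℂ, w ^ (n + 1) = 1 → w ≠ 1 → ∃ i, δ i = w := by
    intro w hw hw1
    obtain ⟨i, hi⟩ := hconv w hw
    rcases Fin.eq_zero_or_eq_succ i with h0 | ⟨j, hj⟩
    · exfalso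
      rw [h0, hz0] at hi
      exact hw1 hi.symm
    · exact ⟨j, by rw [← hzs, ← hj]; exact hi⟩
  have hdinj : Function.Injective δ := by
    intro i j hij
    have h1 : z i.succ = z j.succ := by rw [hzs, hzs, hij]
    exact Fin.succ_injective n (hinj h1)
  have hdroot : ∀ i, δ i ^ (n + 1) = 1 := fun i => by rw [← hzs]; exact hroot _
  have hd1 : ∀ i, δ i ≠ 1 := by
    intro i hi
    have h1 : z i.succ = z 0 := by rw [hzs, hz0, hi]
    exact Fin.succ_ne_zero i (hinj h1)
  have hnorm : ∀ i, ‖δ i‖ = 1 := fun i =>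
    Complex.norm_eq_one_of_pow_eq_one (hdroot i) (Nat.succ_ne_zero n)
  refine ⟨hdinj, hnorm, ?_⟩
  have hex : ∀ i, ∃ j, δ j = (starRingEnd ℂ) (δ i) := by
    intro i
    refine hconv' _ ?_ ?_
    · rw [← map_pow, hdroot, map_one]
    · intro h
      apply hd1 i
      have h2 := congrArg (starRingEnd ℂ) h
      rwa [Complex.conj_conj, map_one] at h2
  choose f hf using hex
  have hinv : Function.Involutive f := by
    intro i
    apply hdinj
    rw [hf, hf, Complex.conj_conj]
  refine ⟨hinv.toPerm, fun i => (hf i).symm, ?_⟩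
  have hsq : (hinv.toPerm : Equiv.Perm (Fin n)) ^ 2 = 1 := by
    ext i
    rw [pow_two, Equiv.Perm.mul_apply]
    simp [hinv i]
  have : Fact (Nat.Prime 2) := ⟨Nat.prime_two⟩
  have hsign := Equiv.Perm.sign_of_cycleType_eq_replicate (by norm_num : 0 < 2)
    (Equiv.Perm.cycleType_of_pow_prime_eq_one hsq)
  obtain ⟨i0, hi0⟩ := hconv' (-1) (by
    have h1 : Even (n + 1) := by
      rw [Nat.even_iff]; omega
    exact h1.neg_one_pow) (by norm_num)
  have hfix : ∀ i, i ∈ Function.fixedPoints (hinv.toPerm : Equiv.Perm (Fin n)) ↔ i = i0 := by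
    intro i
    rw [Function.mem_fixedPoints, Function.IsFixedPt]
    change f i = i ↔ i = i0
    constructor
    · intro h
      have h1 : (starRingEnd ℂ) (δ i) = δ i := by rw [← hf, h]
      have h2 : δ i * δ i = 1 := by
        have h3 := Complex.mul_conj (δ i)
        rw [h1, Complex.normSq_eq_norm_sq, hnorm] at h3
        simpa using h3
      have h4 : (δ i - 1) * (δ i + 1) = 0 := by linear_combination h2
      rcases mul_eq_zero.1 h4 with h5 | h5
      · exact absurd (by linear_combination h5) (hd1 i)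
      · apply hdinj
        rw [hi0]
        linear_combination h5
    · rintro rfl
      apply hdinj
      rw [hf, hi0]
      simp
  have hcard : Fintype.card (Function.fixedPoints (hinv.toPerm : Equiv.Perm (Fin n))) = 1 := by
    rw [Fintype.card_eq_one_iff]
    exact ⟨⟨i0, (hfix i0).2 rfl⟩, fun y => Subtype.ext ((hfix y).1 y.2)⟩
  rw [hsign, hcard, Fintype.card_fin, if_neg (by decide)]
  have hodd : Odd ((n - 1) / 2) := by
    rw [Nat.odd_iff]; omega
  exact hodd.neg_one_pow

end Pool.Agent.Helper80.CB
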