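import Pool.Agent.Helper80.CB.Stmts

/-!
# Complex Banach conjecture, algebra half: module A_TRP

The power traces are homogeneous invariant polynomials.
-/

namespace Pool.Agent.Helper80.CB

open Matrix MvPolynomial

section TRP

variable {n q : ℕ} (D : Cpt n) (b : Module.Basis (Fin q) ℝ D.h)

/-- `f` is a homogeneous complex polynomial function of degree `j`. -/
def trp_CP (j : ℕ) (f : D.h → ℂ) : Prop :=
  ∃ P Q : MvPolynomial (Fin q) ℝ, P.IsHomogeneous j ∧ Q.IsHomogeneous j ∧
    ∀ X, f X = ((val b X P : ℝ) : ℂ) + Complex.I * ((val b X Q : ℝ) : ℂ)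

theorem trp_zero (j : ℕ) : trp_CP D b j (fun _ => 0) :=
  ⟨0, 0, isHomogeneous_zero _ _ _, isHomogeneous_zero _ _ _, fun X => by simp [val]⟩

theorem trp_add {j : ℕ} {f g : D.h → ℂ} (hf : trp_CP D b j f) (hg : trp_CP D b j g) :
    trp_CP D b j (fun X => f X + g X) := by
  obtain ⟨P, Q, hP, hQ, h1⟩ := hf
  obtain ⟨P', Q', hP', hQ', h2⟩ := hg
  refine ⟨P + P', Q + Q', hP.add hP', hQ.add hQ', fun X => ?_⟩
  simp only [h1, h2, val, map_add, Complex.ofReal_add]
  ring

theorem trp_sum {ι : Type} (s : Finset ι) {j : ℕ} {f : ι → D.h → ℂ}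
    (hf : ∀ i, trp_CP D b j (f i)) : trp_CP D b j (fun X => ∑ i ∈ s, f i X) := by
  classical
  induction s using Finset.induction_on with
  | empty => simpa using trp_zero D b j
  | insert a s ha ih =>
    have h := trp_add D b (hf a) ih
    simpa only [Finset.sum_insert ha] using h

theorem trp_mul {j k : ℕ} {f g : D.h → ℂ} (hf : trp_CP D b j f) (hg : trp_CP D b k g) :
    trp_CP D b (j + k) (fun X => f X * g X) := by
  obtain ⟨P, Q, hP, hQ, h1⟩ := hf
  obtain ⟨P', Q', hP', hQ', h2⟩ := hg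
  refine ⟨P * P' - Q * Q', P * Q' + Q * P', (hP.mul hP').sub (hQ.mul hQ'),
    (hP.mul hQ').add (hQ.mul hP'), fun X => ?_⟩
  simp only [h1, h2, val, map_add, map_sub, map_mul, Complex.ofReal_add, Complex.ofReal_sub,
    Complex.ofReal_mul]
  linear_combination (-(((eval (fun i => b.repr X i) Q : ℝ) : ℂ) *
    ((eval (fun i => b.repr X i) Q' : ℝ) : ℂ))) * (-Complex.I_mul_I)

theorem trp_entry (k l : Fin n) : trp_CP D b 1 (fun X => (X : Mat n) k l) := by
  refine ⟨∑ a, C (((b a : Mat n) k l).re) * MvPolynomial.X a,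
    ∑ a, C (((b a : Mat n) k l).im) * MvPolynomial.X a, ?_, ?_, fun X => ?_⟩
  · refine IsHomogeneous.sum _ _ _ fun a _ => ?_
    simpa using (isHomogeneous_C (Fin q) (((b a : Mat n) k l).re)).mul (isHomogeneous_X ℝ a)
  · refine IsHomogeneous.sum _ _ _ fun a _ => ?_
    simpa using (isHomogeneous_C (Fin q) (((b a : Mat n) k l).im)).mul (isHomogeneous_X ℝ a)
  · have h1 : (X : Mat n) = ∑ a, (b.repr X a) • ((b a : D.h) : Mat n) := by
      have h2 := congrArg (fun Z : D.h => (Z : Mat n)) (b.sum_repr X)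
      simp only [Submodule.coe_sum, Submodule.coe_smul] at h2
      exact h2.symm
    have h3 : (X : Mat n) k l = ∑ a, ((b.repr X a : ℝ) : ℂ) * ((b a : D.h) : Mat n) k l := by
      conv_lhs => rw [h1]
      rw [Matrix.sum_apply]
      refine Finset.sum_congr rfl fun a _ => ?_
      rw [Matrix.smul_apply, Complex.real_smul]
    beta_reduce
    rw [h3]
    simp only [val, map_sum, map_mul, eval_C, eval_X, Complex.ofReal_sum, Complex.ofReal_mul]
    rw [Finset.mul_sum, ← Finset.sum_add_distrib]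
    refine Finset.sum_congr rfl fun a _ => ?_
    have h4 : ((b a : D.h) : Mat n) k l = ((((b a : Mat n) k l).re : ℝ) : ℂ) +
        ((((b a : Mat n) k l).im : ℝ) : ℂ) * Complex.I := (Complex.re_add_im _).symm
    rw [h4]
    simp only [Complex.add_re, Complex.ofReal_re, Complex.mul_re, Complex.I_re, mul_zero,
      Complex.ofReal_im, Complex.I_im, mul_one, sub_self, add_zero, Complex.add_im,
      Complex.mul_im, zero_add]
    ring

theorem trp_pow (j : ℕ) : ∀ k l : Fin n, trp_CP D b j (fun X => ((X : Mat n) ^ j) k l) := by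
  induction j with
  | zero =>
    intro k l
    refine ⟨C (if k = l then 1 else 0), 0, isHomogeneous_C _ _, isHomogeneous_zero _ _ _,
      fun X => ?_⟩
    simp only [pow_zero, Matrix.one_apply, val, eval_C, map_zero, Complex.ofReal_zero, mul_zero,
      add_zero]
    split_ifs <;> simp
  | succ j ih =>
    intro k l
    have h : (fun X : D.h => ((X : Mat n) ^ (j + 1)) k l) =
        fun X : D.h => ∑ m : Fin n, ((X : Mat n) ^ j) k m * (X : Mat n) m l := by
      funext X
      rw [pow_succ, Matrix.mul_apply]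
    rw [h]
    exact trp_sum D b _ fun m => trp_mul D b (ih k m) (trp_entry D b m l)

end TRP

/-- Module A_TRP. -/
theorem st_TRP : ST_TRP := by
  intro n q D b j
  obtain ⟨P, Q, hP, -, h⟩ : trp_CP D b j (fun X => ∑ k : Fin n, ((X : Mat n) ^ j) k k) :=
    trp_sum D b _ fun k => trp_pow D b j k k
  have hreal : ∀ X : D.h, (starRingEnd ℂ) (Matrix.trace ((X : Mat n) ^ j)) =
      Matrix.trace ((X : Mat n) ^ j) := by
    intro X
    have h1 : (((X : Mat n) ^ j)ᴴ) = (X : Mat n) ^ j := by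
      rw [Matrix.conjTranspose_pow, D.herm X X.2]
    calc (starRingEnd ℂ) (Matrix.trace ((X : Mat n) ^ j))
        = Matrix.trace (((X : Mat n) ^ j)ᴴ) := by
          rw [Matrix.trace_conjTranspose]; rfl
      _ = _ := by rw [h1]
  have hval : ∀ X : D.h, Matrix.trace ((X : Mat n) ^ j) = ((val b X P : ℝ) : ℂ) := by
    intro X
    have h1 : Matrix.trace ((X : Mat n) ^ j) = ((val b X P : ℝ) : ℂ) +
      Complex.I * ((val b X Q : ℝ) : ℂ) := h X
    have h2 := Complex.conj_eq_iff_im.1 (hreal X)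
    rw [h1] at h2
    simp at h2
    rw [h1, h2]
    simp
  refine ⟨P, hP, ?_, hval⟩
  intro g hg X
  have h1 := hval ⟨g * X * gᴴ, D.Ad_mem g hg X X.2⟩
  have h2 := hval X
  have h3 : ∀ m : ℕ, (g * (X : Mat n) * gᴴ) ^ m * g = g * (X : Mat n) ^ m := by
    intro m
    induction m with
    | zero => simp
    | succ m ih =>
      have h4 := D.unit g hg
      calc (g * (X : Mat n) * gᴴ) ^ (m + 1) * g
          = (g * (X : Mat n) * gᴴ) ^ m * (g * (X : Mat n) * (gᴴ * g)) := by
            rw [pow_succ]; simp only [Matrix.mul_assoc]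
        _ = ((g * (X : Mat n) * gᴴ) ^ m * g) * (X : Mat n) := by
            rw [h4]; simp only [Matrix.mul_one, Matrix.mul_assoc]
        _ = g * (X : Mat n) ^ (m + 1) := by
            rw [ih, pow_succ]; simp only [Matrix.mul_assoc]
  have h5 : g * gᴴ = 1 := by
    have h4 := D.unit gᴴ (D.star_mem g hg)
    rwa [Matrix.conjTranspose_conjTranspose] at h4
  have h6 : Matrix.trace ((g * (X : Mat n) * gᴴ) ^ j) = Matrix.trace ((X : Mat n) ^ j) := by
    calc Matrix.trace ((g * (X : Mat n) * gᴴ) ^ j)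
        = Matrix.trace ((g * (X : Mat n) * gᴴ) ^ j * (g * gᴴ)) := by rw [h5, Matrix.mul_one]
      _ = Matrix.trace (((g * (X : Mat n) * gᴴ) ^ j * g) * gᴴ) := by
          rw [Matrix.mul_assoc ((g * (X : Mat n) * gᴴ) ^ j) g gᴴ]
      _ = Matrix.trace (g * (X : Mat n) ^ j * gᴴ) := by rw [h3]
      _ = Matrix.trace (gᴴ * (g * (X : Mat n) ^ j)) := by rw [Matrix.trace_mul_comm]
      _ = Matrix.trace ((X : Mat n) ^ j) := by
          rw [← Matrix.mul_assoc, D.unit g hg, Matrix.one_mul]
  have h7 : ((val b ⟨g * X * gᴴ, D.Ad_mem g hg X X.2⟩ P : ℝ) : ℂ) = ((val b X P : ℝ) : ℂ) := by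
    rw [← h1, ← h2]
    exact h6
  exact_mod_cast h7

end Pool.Agent.Helper80.CB
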