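import Pool.Agent.Helper83.CB.Defs4

/-!
# Complex Banach conjecture: module GLUE (periodisation of a weakly closed form)
-/

open Filter Topology MeasureTheory

namespace Pool.Agent.Helper83.CB

section
variable {ι : Type} [Fintype ι] [DecidableEq ι]

theorem glue_ae {W : Type*} (ω : (ι → ℝ) → W)
    (hs : ∀ μ, ∀ᵐ x : ι → ℝ, (∀ ν, -2 ≤ x ν ∧ x ν ≤ 2) → x μ ≤ 1 →
      ω (x + Pi.single μ 1) = ω x) :
    ∀ᵐ y : ι → ℝ, (∀ i, -(1 / 2) ≤ y i ∧ y i ≤ 3 / 2) →
      ω (fun i => Int.fract (y i)) = ω y := by
  have h1 : ∀ᵐ y : ι → ℝ, ∀ (k : ι → ℤ) (μ : ι),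
      (∀ ν, -2 ≤ (y + fun i => (k i : ℝ)) ν ∧ (y + fun i => (k i : ℝ)) ν ≤ 2) →
      (y + fun i => (k i : ℝ)) μ ≤ 1 →
      ω ((y + fun i => (k i : ℝ)) + Pi.single μ 1) = ω (y + fun i => (k i : ℝ)) := by
    rw [ae_all_iff]
    intro k
    rw [ae_all_iff]
    intro μ
    exact (measurePreserving_add_right volume
      (fun i => (k i : ℝ))).quasiMeasurePreserving.tendsto_ae.eventually (hs μ)
  filter_upwards [h1] with y hy hbox
  have key : ∀ s : Finset ι, ω (fun i => if i ∈ s then Int.fract (y i) else y i) = ω y := by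
    intro s
    induction s using Finset.induction_on with
    | empty => simp
    | insert a s ha ih =>
      rw [← ih]
      have hfr : ∀ i, -2 ≤ (if i ∈ s then Int.fract (y i) else y i) ∧
          (if i ∈ s then Int.fract (y i) else y i) ≤ 3 / 2 := by
        intro i
        have h2 := hbox i
        have h3 := Int.fract_nonneg (y i)
        have h4 := Int.fract_lt_one (y i)
        split_ifs
        · constructor <;> linarith
        · constructor <;> linarith
      have hfl : ⌊y a⌋ = -1 ∨ ⌊y a⌋ = 0 ∨ ⌊y a⌋ = 1 := by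
        have h2 := hbox a
        have h3 : -1 ≤ ⌊y a⌋ := by
          rw [Int.le_floor]; push_cast; linarith
        have h4 : ⌊y a⌋ < 2 := by
          rw [Int.floor_lt]; push_cast; linarith
        omega
      have hself : Int.fract (y a) = y a - ⌊y a⌋ := rfl
      rcases hfl with hf | hf | hf
      · -- fract = y + 1
        have h5 := hy (fun i => if i ∈ s then -⌊y i⌋ else 0) a
        have h6 : (y + fun i => (((if i ∈ s then -⌊y i⌋ else 0 : ℤ)) : ℝ)) =
            fun i => if i ∈ s then Int.fract (y i) else y i := by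
          funext i
          rw [Pi.add_apply]
          by_cases hi : i ∈ s
          · simp only [if_pos hi]
            rw [Int.fract]; push_cast; ring
          · simp only [if_neg hi]
            simp
        rw [h6] at h5
        have h7 : (fun i => if i ∈ insert a s then Int.fract (y i) else y i) =
            (fun i => if i ∈ s then Int.fract (y i) else y i) + Pi.single a 1 := by
          funext i
          rw [Pi.add_apply]
          by_cases hia : i = a
          · subst hia
            rw [if_pos (Finset.mem_insert_self _ _), if_neg ha, Pi.single_eq_same, hself, hf]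
            push_cast; ring
          · rw [Pi.single_eq_of_ne hia, add_zero]
            simp only [Finset.mem_insert, hia, false_or]
        rw [h7]
        beta_reduce at h5
        apply h5
        · intro ν
          exact ⟨(hfr ν).1, (hfr ν).2.trans (by norm_num)⟩
        · rw [if_neg ha]
          have h8 : y a < 0 := by
            have := Int.lt_floor_add_one (y a)
            rw [hf] at this; push_cast at this; linarith
          linarith
      · have h7 : (fun i => if i ∈ insert a s then Int.fract (y i) else y i) =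
            (fun i => if i ∈ s then Int.fract (y i) else y i) := by
          funext i
          by_cases hia : i = a
          · subst hia
            rw [if_pos (Finset.mem_insert_self _ _), if_neg ha, hself, hf]
            push_cast; ring
          · simp only [Finset.mem_insert, hia, false_or]
        rw [h7]
      · -- fract = y - 1
        have h5 := hy (fun i => if i ∈ insert a s then -⌊y i⌋ else 0) a
        have h6 : (y + fun i => (((if i ∈ insert a s then -⌊y i⌋ else 0 : ℤ)) : ℝ)) =
            fun i => if i ∈ insert a s then Int.fract (y i) else y i := by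
          funext i
          rw [Pi.add_apply]
          by_cases hi : i ∈ insert a s
          · simp only [if_pos hi]
            rw [Int.fract]; push_cast; ring
          · simp only [if_neg hi]
            simp
        rw [h6] at h5
        have h7 : (fun i => if i ∈ s then Int.fract (y i) else y i) =
            (fun i => if i ∈ insert a s then Int.fract (y i) else y i) + Pi.single a 1 := by
          funext i
          rw [Pi.add_apply]
          by_cases hia : i = a
          · subst hia
            rw [if_pos (Finset.mem_insert_self _ _), if_neg ha, Pi.single_eq_same, hself, hf]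
            push_cast; ring
          · rw [Pi.single_eq_of_ne hia, add_zero]
            simp only [Finset.mem_insert, hia, false_or]
        rw [h7]
        symm
        beta_reduce at h5
        apply h5
        · intro ν
          have h3 := Int.fract_nonneg (y ν)
          have h4 := Int.fract_lt_one (y ν)
          have h2 := hbox ν
          split_ifs
          · constructor <;> linarith
          · constructor <;> linarith
        · rw [if_pos (Finset.mem_insert_self _ _)]
          exact (Int.fract_lt_one _).le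
  have h2 := key Finset.univ
  simpa using h2

theorem glue_qmp : Measure.QuasiMeasurePreserving (fun x : ι → ℝ => fun i => Int.fract (x i))
    volume volume := by
  have hm : Measurable (fun x : ι → ℝ => fun i => Int.fract (x i)) :=
    measurable_pi_lambda _ fun i => (measurable_pi_apply i).fract
  refine ⟨hm, Measure.AbsolutelyContinuous.mk fun s hs h0 => ?_⟩
  rw [Measure.map_apply hm hs]
  have h1 : (fun x : ι → ℝ => fun i => Int.fract (x i)) ⁻¹' s ⊆
      ⋃ k : ι → ℤ, (fun x : ι → ℝ => x + fun i => (k i : ℝ)) ⁻¹' s := by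
    intro x hx
    rw [Set.mem_iUnion]
    refine ⟨fun i => -⌊x i⌋, ?_⟩
    rw [Set.mem_preimage] at hx ⊢
    have : (x + fun i => ((-⌊x i⌋ : ℤ) : ℝ)) = fun i => Int.fract (x i) := by
      funext i
      rw [Pi.add_apply, Int.fract]; push_cast; ring
    rw [this]
    exact hx
  refine measure_mono_null h1 (measure_iUnion_null fun k => ?_)
  rw [(measurePreserving_add_right volume (fun i => (k i : ℝ))).measure_preimage
    hs.nullMeasurableSet]
  exact h0

variable {W : Type*} [NormedAddCommGroup W] [NormedSpace ℝ W]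

theorem glue_pdcont {g : (ι → ℝ) → ℝ} (hg : ContDiff ℝ (⊤ : ℕ∞) g) (μ : ι) :
    Continuous fun x => pd g x μ := by
  have h1 : Continuous (fderiv ℝ g) := hg.continuous_fderiv (by simp)
  exact h1.clm_apply continuous_const

theorem glue_pdsupp {g : (ι → ℝ) → ℝ} (hc : HasCompactSupport g) (μ : ι) :
    HasCompactSupport fun x => pd g x μ :=
  hc.fderiv_apply ℝ (Pi.single μ 1)

theorem glue_int {g : (ι → ℝ) → ℝ} (hg : ContDiff ℝ (⊤ : ℕ∞) g) (hc : HasCompactSupport g)
    (μ : ι) {F : (ι → ℝ) → W} (hF : AEStronglyMeasurable F volume) (C : ℝ)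
    (hC : ∀ x, ‖F x‖ ≤ C) : Integrable (fun x => pd g x μ • F x) := by
  have hI : Integrable (fun x => pd g x μ) :=
    (glue_pdcont hg μ).integrable_of_hasCompactSupport (glue_pdsupp hc μ)
  refine Integrable.mono' (hI.norm.mul_const C) (hI.aestronglyMeasurable.smul hF)
    (ae_of_all _ fun x => ?_)
  rw [norm_smul]
  exact mul_le_mul_of_nonneg_left (hC x) (norm_nonneg _)

/-- The functional whose vanishing is weak closedness. -/
noncomputable def glue_L (F : ι → (ι → ℝ) → W) (g : (ι → ℝ) → ℝ) : W :=
  ∑ μ, ∫ x, pd g x μ • F μ x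

theorem glue_L_add {F : ι → (ι → ℝ) → W} (hF : ∀ μ, AEStronglyMeasurable (F μ) volume) (C : ℝ)
    (hC : ∀ μ x, ‖F μ x‖ ≤ C) {g h : (ι → ℝ) → ℝ} (hg : ContDiff ℝ (⊤ : ℕ∞) g)
    (hgc : HasCompactSupport g) (hh : ContDiff ℝ (⊤ : ℕ∞) h) (hhc : HasCompactSupport h) :
    glue_L F (fun x => g x + h x) = glue_L F g + glue_L F h := by
  unfold glue_L
  rw [← Finset.sum_add_distrib]
  refine Finset.sum_congr rfl fun μ _ => ?_
  rw [← integral_add (glue_int hg hgc μ (hF μ) C (hC μ)) (glue_int hh hhc μ (hF μ) C (hC μ))]
  refine integral_congr_ae (ae_of_all _ fun x => ?_)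
  have h1 : pd (fun x => g x + h x) x μ = pd g x μ + pd h x μ := by
    unfold pd
    have h2 : fderiv ℝ (fun x => g x + h x) x = fderiv ℝ g x + fderiv ℝ h x :=
      fderiv_fun_add (hg.differentiable (by simp) x) (hh.differentiable (by simp) x)
    rw [h2]
    rfl
  change pd (fun x => g x + h x) x μ • F μ x = pd g x μ • F μ x + pd h x μ • F μ x
  rw [h1, add_smul]

theorem glue_L_zero (F : ι → (ι → ℝ) → W) : glue_L F (fun _ => 0) = 0 := by
  unfold glue_L
  refine Finset.sum_eq_zero fun μ _ => ?_
  have h1 : ∀ x : ι → ℝ, pd (fun _ : ι → ℝ => (0 : ℝ)) x μ = 0 := fun x => by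
    unfold pd
    simp
  simp only [h1, zero_smul]
  exact integral_zero _ _

/-- A functional vanishing on test functions with small support vanishes on all test
functions. -/
theorem glue_partition {F : ι → (ι → ℝ) → W} (hF : ∀ μ, AEStronglyMeasurable (F μ) volume)
    (C : ℝ) (hC : ∀ μ x, ‖F μ x‖ ≤ C)
    (hloc : ∀ x0 : ι → ℝ, ∀ g : (ι → ℝ) → ℝ, ContDiff ℝ (⊤ : ℕ∞) g → HasCompactSupport g →
      tsupport g ⊆ Metric.closedBall x0 (1 / 4) → glue_L F g = 0) :
    ∀ g : (ι → ℝ) → ℝ, ContDiff ℝ (⊤ : ℕ∞) g → HasCompactSupport g → glue_L F g = 0 := by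
  intro g hg hgc
  let ψ : (ι → ℝ) → ContDiffBump (0 : ι → ℝ) := fun _ =>
    { rIn := 1 / 8, rOut := 1 / 4, rIn_pos := by norm_num, rIn_lt_rOut := by norm_num }
  let φ : (ι → ℝ) → (ι → ℝ) → ℝ := fun x0 x => ψ x0 (x - x0)
  have hφs : ∀ x0, ContDiff ℝ (⊤ : ℕ∞) (φ x0) := fun x0 =>
    (ψ x0).contDiff.comp (contDiff_id.sub contDiff_const)
  have hφ1 : ∀ x0 x, x ∈ Metric.closedBall x0 (1 / 8) → φ x0 x = 1 := by
    intro x0 x hx
    apply (ψ x0).one_of_mem_closedBall
    rw [Metric.mem_closedBall, dist_eq_norm] at hx ⊢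
    rw [sub_zero]
    exact hx
  have hφ0 : ∀ x0 x, x ∉ Metric.closedBall x0 (1 / 4) → φ x0 x = 0 := by
    intro x0 x hx
    apply (ψ x0).zero_of_le_dist
    rw [Metric.mem_closedBall, dist_eq_norm, not_le] at hx
    rw [dist_eq_norm, sub_zero]
    exact hx.le
  obtain ⟨J, hJ⟩ : ∃ J : Finset (ι → ℝ), tsupport g ⊆ ⋃ x0 ∈ J, Metric.closedBall x0 (1 / 8) := by
    obtain ⟨t, ht⟩ := hgc.elim_finite_subcover (fun x0 : ι → ℝ => Metric.ball x0 (1 / 8))
      (fun _ => Metric.isOpen_ball)
      (fun x _ => Set.mem_iUnion.2 ⟨x, Metric.mem_ball_self (by norm_num)⟩)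
    refine ⟨t, fun x hx => ?_⟩
    have h1 := ht hx
    simp only [Set.mem_iUnion] at h1 ⊢
    obtain ⟨y, hy, h2⟩ := h1
    exact ⟨y, hy, Metric.ball_subset_closedBall h2⟩
  have hprod : ∀ J : Finset (ι → ℝ), ContDiff ℝ (⊤ : ℕ∞) (fun x => ∏ x0 ∈ J, (1 - φ x0 x)) := by
    intro J
    exact contDiff_prod fun x0 _ => contDiff_const.sub (hφs x0)
  have hind : ∀ J : Finset (ι → ℝ),
      glue_L F (fun x => g x * (1 - ∏ x0 ∈ J, (1 - φ x0 x))) = 0 := by
    intro J
    induction J using Finset.induction_on with
    | empty =>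
      simp only [Finset.prod_empty, sub_self, mul_zero]
      exact glue_L_zero F
    | insert a J ha ih =>
      have h1 : (fun x => g x * (1 - ∏ x0 ∈ insert a J, (1 - φ x0 x))) =
          fun x => g x * (1 - ∏ x0 ∈ J, (1 - φ x0 x)) +
            g x * (φ a x * ∏ x0 ∈ J, (1 - φ x0 x)) := by
        funext x
        rw [Finset.prod_insert ha]
        ring
      have hs2 : ContDiff ℝ (⊤ : ℕ∞) (fun x => g x * (φ a x * ∏ x0 ∈ J, (1 - φ x0 x))) :=
        hg.mul ((hφs a).mul (hprod J))
      have hc2 : HasCompactSupport (fun x => g x * (φ a x * ∏ x0 ∈ J, (1 - φ x0 x))) :=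
        hgc.mul_right
      rw [h1, glue_L_add hF C hC (hg.mul (contDiff_const.sub (hprod J))) hgc.mul_right hs2 hc2,
        ih, zero_add]
      refine hloc a _ hs2 hc2 ?_
      refine closure_minimal ?_ Metric.isClosed_closedBall
      intro x hx
      by_contra hxn
      rw [Function.mem_support] at hx
      apply hx
      rw [hφ0 a x hxn, zero_mul, mul_zero]
  have hfin : (fun x => g x * (1 - ∏ x0 ∈ J, (1 - φ x0 x))) = g := by
    funext x
    by_cases hx : x ∈ tsupport g
    · have h1 := hJ hx
      simp only [Set.mem_iUnion] at h1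
      obtain ⟨x0, hx0, h2⟩ := h1
      rw [Finset.prod_eq_zero hx0 (by rw [hφ1 x0 x h2, sub_self]), sub_zero, mul_one]
    · rw [image_eq_zero_of_notMem_tsupport hx, zero_mul]
  have h1 := hind J
  rwa [hfin] at h1

end

/-- Module GLUE. -/
theorem st_GLUE : ST_GLUE := by
  intro ι _ _ Λ ω hm hb hev hcl hsh
  obtain ⟨C, hC⟩ := hb
  have hmω : AEStronglyMeasurable (fun x : ι → ℝ => ω fun i => Int.fract (x i)) volume :=
    hm.comp_quasiMeasurePreserving glue_qmp
  refine ⟨hmω, ⟨C, fun x => hC _⟩, ?_, fun x => hev _, ?_⟩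
  · intro x μ
    have h1 : (fun i => Int.fract ((x + Pi.single μ (1 : ℝ) : ι → ℝ) i)) = fun i => Int.fract (x i) := by
      funext i
      rw [Pi.add_apply]
      by_cases hi : i = μ
      · subst hi
        rw [Pi.single_eq_same, Int.fract_add_one]
      · rw [Pi.single_eq_of_ne hi, add_zero]
    exact congrArg ω h1
  · intro g hg hgc
    set F : ι → (ι → ℝ) → (Λ.X →L[ℝ] Λ.X) := fun μ x => Λ.e μ * ω fun i => Int.fract (x i) with hFd
    have hFm : ∀ μ, AEStronglyMeasurable (F μ) volume := by
      intro μ
      exact (ContinuousLinearMap.mul ℝ (Λ.X →L[ℝ] Λ.X) (Λ.e μ)).continuous.comp_aestronglyMeasurable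
        hmω
    have hFC : ∀ μ x, ‖F μ x‖ ≤ (∑ ν, ‖Λ.e ν‖) * C := by
      intro μ x
      have h1 : ‖Λ.e μ‖ ≤ ∑ ν, ‖Λ.e ν‖ :=
        Finset.single_le_sum (f := fun ν => ‖Λ.e ν‖) (fun ν _ => norm_nonneg _)
          (Finset.mem_univ μ)
      calc ‖F μ x‖ ≤ ‖Λ.e μ‖ * ‖ω fun i => Int.fract (x i)‖ := norm_mul_le _ _
        _ ≤ (∑ ν, ‖Λ.e ν‖) * C := by
          refine mul_le_mul h1 (hC _) (norm_nonneg _) (le_trans (norm_nonneg _) h1)
    have hmain := glue_partition hFm _ hFC ?_ g hg hgc
    · exact hmain
    · intro x0 g hg hgc hsupp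
      set m : ι → ℝ := fun i => (⌊x0 i⌋ : ℝ) with hmd
      have hae := glue_ae ω hsh
      have hgm : ContDiff ℝ (⊤ : ℕ∞) (fun y => g (y + m)) :=
        hg.comp (contDiff_id.add contDiff_const)
      have hgmc : HasCompactSupport (fun y => g (y + m)) :=
        hgc.comp_homeomorph (Homeomorph.addRight m)
      have h0 := hcl (fun y => g (y + m)) hgm hgmc
      rw [← h0]
      unfold glue_L
      refine Finset.sum_congr rfl fun μ _ => ?_
      rw [← integral_add_right_eq_self (fun x => pd g x μ • F μ x) m]
      refine integral_congr_ae ?_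
      filter_upwards [hae] with y hy
      have h1 : pd (fun y => g (y + m)) y μ = pd g (y + m) μ := by
        unfold pd
        rw [fderiv_comp_add_right]
      rw [h1]
      by_cases hys : y + m ∈ tsupport g
      · have h2 := hsupp hys
        rw [Metric.mem_closedBall, dist_pi_le_iff (by norm_num)] at h2
        have h3 : ω (fun i => Int.fract (y i)) = ω y := by
          apply hy
          intro i
          have h4 := h2 i
          rw [Real.dist_eq, Pi.add_apply, abs_le] at h4
          have h5 := Int.floor_le (x0 i)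
          have h6 := Int.lt_floor_add_one (x0 i)
          simp only [hmd] at h4
          constructor <;> linarith [h4.1, h4.2]
        have h4 : F μ (y + m) = Λ.e μ * ω y := by
          simp only [hFd]
          rw [← h3]
          have h5 : (fun i => Int.fract ((y + m) i)) = fun i => Int.fract (y i) := by
            funext i
            rw [Pi.add_apply, hmd]
            exact Int.fract_add_intCast _ _
          rw [h5]
        rw [h4]
      · have h2 : pd g (y + m) μ = 0 := by
          unfold pd
          have h3 : y + m ∉ tsupport (fderiv ℝ g) := fun h => hys (tsupport_fderiv_subset ℝ h)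
          rw [image_eq_zero_of_notMem_tsupport h3]
          rfl
        rw [h2, zero_smul, zero_smul]

end Pool.Agent.Helper83.CB
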